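import Pool.Agent.Y225.Gor.Defs
import Pool.Agent.W327.F4.Curve

/-!
# The first cohomology group of a punctured curve has finite rank
-/

set_option autoImplicit false

open Metric Set Topology

namespace Pool.Agent.Y852.Gor

open H113G Pool.Agent.W327.F4 Pool.Agent.Y225.Gor

variable {Y : Type} [TopologicalSpace Y]

/-- a finite cover by sheets over convex sets -/
theorem sheets [T2Space Y] (pr : Y → ℂ)
    (hpr : IsLocalHomeomorph pr) (B : Set ℂ) (hB : B.Finite) (hcov : IsCoveringMapOn pr Bᶜ)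
    (hfin : ∀ s, (pr ⁻¹' {s}).Finite) :
    ∃ (m : ℕ) (K : Fin m → Set ℂ) (σ : Fin m → ℂ → Y), (∀ i, Good pr (K i) (σ i)) ∧
      (∀ y, ∃ i, y ∈ img pr (K i) (σ i)) ∧
      ∀ i j, ∀ t ∈ img pr (K i) (σ i) ∩ img pr (K j) (σ j),
        ∀ t' ∈ img pr (K i) (σ i) ∩ img pr (K j) (σ j),
        JoinedIn (img pr (K i) (σ i) ∩ img pr (K j) (σ j)) t t' := by
  classical
  obtain ⟨𝒦, h1, h2, h3⟩ := convex_cover B hB
  have hS : ∀ K ∈ 𝒦, ∃ 𝒮 : Set (ℂ → Y), 𝒮.Finite ∧ (∀ σ ∈ 𝒮, Good pr K σ) ∧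
      ∀ y, pr y ∈ K → ∃ σ ∈ 𝒮, y ∈ img pr K σ := fun K hK =>
    cov_sections pr hpr Bᶜ hcov hfin K (h2 K hK).1 (h2 K hK).2.1 (h2 K hK).2.2
  choose! 𝒮 s1 s2 s3 using hS
  have hL : ∀ y, ∃ (K : Set ℂ) (σ : ℂ → Y), Good pr K σ ∧ y ∈ img pr K σ := by
    intro y
    obtain ⟨e, he, hee⟩ := hpr y
    have hmem : pr y ∈ e.target := by rw [hee]; exact e.map_source he
    obtain ⟨ε, hε, hball⟩ := Metric.isOpen_iff.1 e.open_target _ hmem
    refine ⟨Metric.ball (pr y) ε, e.symm, ⟨Metric.isOpen_ball, convex_ball _ _,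
      e.continuousOn_symm.mono hball, fun z hz => ?_⟩, Metric.mem_ball_self hε, ?_⟩
    · rw [hee]; exact e.right_inv (hball hz)
    · rw [hee]; exact e.left_inv he
  choose KL σL l1 l2 using hL
  let 𝒟 : Set (Set ℂ × (ℂ → Y)) := (⋃ K ∈ 𝒦, (fun σ => (K, σ)) '' 𝒮 K) ∪
    (fun y => (KL y, σL y)) '' (⋃ β ∈ B, pr ⁻¹' {β})
  have hfinD : 𝒟.Finite := by
    refine Set.Finite.union (h1.biUnion fun K hK => (s1 K hK).image _) (Set.Finite.image _ ?_)
    exact hB.biUnion fun β _ => hfin β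
  have hgood : ∀ p ∈ 𝒟, Good pr p.1 p.2 := by
    rintro p (hp | hp)
    · simp only [Set.mem_iUnion] at hp
      obtain ⟨K, hK, σ, hσ, rfl⟩ := hp
      exact s2 K hK σ hσ
    · obtain ⟨y, -, rfl⟩ := hp
      exact l1 y
  have : Finite 𝒟 := hfinD.to_subtype
  obtain ⟨m, ⟨eqv⟩⟩ := Finite.exists_equiv_fin 𝒟
  have hg : ∀ i : Fin m, Good pr (eqv.symm i).1.1 (eqv.symm i).1.2 := fun i =>
    hgood _ (eqv.symm i).2
  refine ⟨m, fun i => (eqv.symm i).1.1, fun i => (eqv.symm i).1.2, hg, ?_, ?_⟩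
  · intro y
    have : ∃ p ∈ 𝒟, y ∈ img pr p.1 p.2 := by
      by_cases hy : pr y ∈ B
      · refine ⟨(KL y, σL y), Or.inr ⟨y, ?_, rfl⟩, l2 y⟩
        simp only [Set.mem_iUnion]
        exact ⟨pr y, hy, rfl⟩
      · obtain ⟨K, hK, hyK⟩ := h3 _ hy
        obtain ⟨σ, hσ, hy2⟩ := s3 K hK y hyK
        refine ⟨(K, σ), Or.inl ?_, hy2⟩
        simp only [Set.mem_iUnion]
        exact ⟨K, hK, σ, hσ, rfl⟩
    obtain ⟨p, hp, hy⟩ := this
    exact ⟨eqv ⟨p, hp⟩, by simpa using hy⟩
  · intro i j t ht t' ht'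
    apply joined_img (hg i) (hg j) _ ht ht'
    exact eq_on_inter hpr (hg i) (hg j) (z₀ := pr t) ⟨ht.1.1, ht.2.1⟩ (ht.1.2.trans ht.2.2.symm)

/-- logarithms on a sheet -/
theorem exists_log {pr : Y → ℂ} (hpr : Continuous pr) {K : Set ℂ} {σ : ℂ → Y} (hg : Good pr K σ)
    (g : Y → ℂ) (hgc : Continuous g) (hne : ∀ y, g y ≠ 0) :
    ∃ h : Y → ℂ, ContinuousOn h (img pr K σ) ∧ ∀ y ∈ img pr K σ, Complex.exp (h y) = g y := by
  classical
  rcases K.eq_empty_or_nonempty with rfl | ⟨z₀, hz₀⟩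
  · refine ⟨0, ?_, ?_⟩
    · have : img pr ∅ σ = ∅ := by
        ext y; simp [img]
      rw [this]; exact continuousOn_empty _
    · intro y hy
      exact absurd hy.1 (Set.notMem_empty _)
  have : ContractibleSpace K := hg.cv.contractibleSpace ⟨_, hz₀⟩
  have : LocallyPathConnectedSpace K := hg.op.locallyPathConnectedSpace
  have hσc : Continuous fun z : K => σ z := hg.ct.domRestrict
  obtain ⟨F, ⟨hF1, hF2⟩, -⟩ := Complex.isCoveringMap_exp.existsUnique_continuousMap_lifts (A := K)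
    (⟨fun z => ⟨g (σ z), hne _⟩, Continuous.subtype_mk (hgc.comp hσc) _⟩ : C(K, {z : ℂ // z ≠ 0}))
    (a₀ := ⟨z₀, hz₀⟩) (e₀ := Complex.log (g (σ z₀)))
    (Subtype.ext (Complex.exp_log (hne _)))
  refine ⟨fun y => if hy : pr y ∈ K then F ⟨pr y, hy⟩ else 0, ?_, ?_⟩
  · rw [continuousOn_iff_continuous_domRestrict]
    have h1 : (img pr K σ).domRestrict (fun y => if hy : pr y ∈ K then F ⟨pr y, hy⟩ else 0) =
        fun y : img pr K σ => F ⟨pr y, y.2.1⟩ := by
      funext y
      simp [Set.domRestrict_apply, y.2.1]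
    rw [h1]
    exact F.continuous.comp (Continuous.subtype_mk (hpr.comp continuous_subtype_val) _)
  · intro y hy
    have h2 := congrArg Subtype.val (congrFun hF2 ⟨pr y, hy.1⟩)
    simp only [hy.1, dif_pos]
    refine h2.trans ?_
    change g (σ (pr y)) = g y
    rw [hy.2]

theorem s_FG : S_FG := by
  classical
  intro Γ _ _ pr b hb
  obtain ⟨m, K, σ, hg, hcover, hjoin⟩ := sheets pr hb.lh {s | b.eval s = 0}
    (by
      have : {s | b.eval s = 0} = (b.roots.toFinset : Set ℂ) := by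
        ext s; simp [hb.ne]
      rw [this]; exact Finset.finite_toSet _)
    (by
      have : {s | b.eval s = 0}ᶜ = {s | b.eval s ≠ 0} := rfl
      rw [this]; exact hb.cov) hb.fin
  have hprc : Continuous pr := hb.lh.continuous
  have hopen : ∀ i, IsOpen (img pr (K i) (σ i)) := fun i => img_open hb.lh (hg i)
  refine ⟨m * m, ?_⟩
  intro g hgc hgne
  have hgc' : ∀ l, Continuous (g l) := fun l => continuousOn_univ.1 (hgc l)
  have hlog : ∀ i l, ∃ h : Γ → ℂ, ContinuousOn h (img pr (K i) (σ i)) ∧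
      ∀ y ∈ img pr (K i) (σ i), Complex.exp (h y) = g l y := fun i l =>
    exists_log hprc (hg i) (g l) (hgc' l) fun y => hgne l y trivial
  choose h hhc hhe using hlog
  have h2π : (2 * (Real.pi : ℂ) * Complex.I) ≠ 0 := Complex.two_pi_I_ne_zero
  -- the transition integers
  have htrans : ∀ i j l, ∃ n : ℤ, ∀ y ∈ img pr (K i) (σ i) ∩ img pr (K j) (σ j),
      h i l y = h j l y + n * (2 * Real.pi * Complex.I) := by
    intro i j l
    by_cases hne : (img pr (K i) (σ i) ∩ img pr (K j) (σ j)).Nonempty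
    · obtain ⟨y₀, hy₀⟩ := hne
      have hint : ∀ y ∈ img pr (K i) (σ i) ∩ img pr (K j) (σ j),
          ∃ n : ℤ, h i l y = h j l y + n * (2 * Real.pi * Complex.I) := fun y hy =>
        Complex.exp_eq_exp_iff_exists_int.1 ((hhe i l y hy.1).trans (hhe j l y hy.2).symm)
      obtain ⟨n, hn⟩ := hint y₀ hy₀
      refine ⟨n, ?_⟩
      have hpc : IsPreconnected (img pr (K i) (σ i) ∩ img pr (K j) (σ j)) :=
        (IsPathConnected.isConnected ⟨y₀, hy₀, fun {y} hy => hjoin i j _ hy₀ y hy⟩).isPreconnected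
      -- the difference is continuous with discrete values
      have hcont : ContinuousOn (fun y => ((h i l y - h j l y) / (2 * Real.pi * Complex.I)).re)
          (img pr (K i) (σ i) ∩ img pr (K j) (σ j)) :=
        Complex.continuous_re.comp_continuousOn
          ((((hhc i l).mono inter_subset_left).sub ((hhc j l).mono inter_subset_right)).div_const _)
      have hval : ∀ y (k : ℤ), h i l y = h j l y + k * (2 * Real.pi * Complex.I) →
          ((h i l y - h j l y) / (2 * Real.pi * Complex.I)).re = k := by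
        intro y k hk
        have : (h i l y - h j l y) / (2 * Real.pi * Complex.I) = (k : ℂ) := by
          rw [hk]; field_simp; ring
        rw [this]; simp
      have hmaps : MapsTo (fun y => ((h i l y - h j l y) / (2 * Real.pi * Complex.I)).re)
          (img pr (K i) (σ i) ∩ img pr (K j) (σ j)) (range ((↑) : ℤ → ℝ)) := by
        intro y hy
        obtain ⟨k, hk⟩ := hint y hy
        exact ⟨k, (hval y k hk).symm⟩
      intro y hy
      have h3 := hpc.constant_of_mapsTo Int.isClosedEmbedding_coe_real.isEmbedding.isDiscrete_range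
        hcont hmaps hy hy₀
      obtain ⟨k, hk⟩ := hint y hy
      rw [hval y k hk, hval y₀ n hn] at h3
      have h4 : k = n := by exact_mod_cast h3
      rw [← h4]; exact hk
    · refine ⟨0, fun y hy => absurd ⟨y, hy⟩ hne⟩
  choose n hn using htrans
  -- integer relation
  have hdep : ¬ LinearIndependent ℤ (fun l : Fin (m * m + 1) => fun p : Fin m × Fin m => n p.1 p.2 l) := by
    intro hli
    have := hli.fintype_card_le_finrank
    rw [Fintype.card_fin, Module.finrank_fintype_fun_eq_card] at this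
    simp at this
  rw [Fintype.not_linearIndependent_iff] at hdep
  obtain ⟨a, ha, l0, hl0⟩ := hdep
  refine ⟨a, fun h0 => hl0 (congrFun h0 l0), ?_⟩
  choose idx hidx using hcover
  have hglue : ∀ i y, y ∈ img pr (K i) (σ i) →
      ∑ l, (a l : ℂ) * h (idx y) l y = ∑ l, (a l : ℂ) * h i l y := by
    intro i y hy
    have h1 : ∑ l, (a l : ℂ) * h (idx y) l y = ∑ l, ((a l : ℂ) * h i l y +
        (a l : ℂ) * n (idx y) i l * (2 * Real.pi * Complex.I)) := by
      refine Finset.sum_congr rfl fun l _ => ?_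
      rw [hn (idx y) i l y ⟨hidx y, hy⟩]
      ring
    rw [h1, Finset.sum_add_distrib, ← Finset.sum_mul]
    have h2 : ∑ l, (a l : ℂ) * n (idx y) i l = 0 := by
      have := congrFun ha (idx y, i)
      simp only [Finset.sum_apply, Pi.smul_apply, smul_eq_mul, Pi.zero_apply] at this
      exact_mod_cast this
    rw [h2, zero_mul, add_zero]
  refine ⟨fun y => ∑ l, (a l : ℂ) * h (idx y) l y, ?_, ?_⟩
  · rw [continuousOn_univ, continuous_iff_continuousAt]
    intro y
    have h1 : ContinuousAt (fun x => ∑ l, (a l : ℂ) * h (idx y) l x) y := by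
      have : ContinuousOn (fun x => ∑ l, (a l : ℂ) * h (idx y) l x) (img pr (K (idx y)) (σ (idx y))) :=
        continuousOn_finsetSum _ fun l _ => continuousOn_const.mul (hhc (idx y) l)
      exact this.continuousAt ((hopen _).mem_nhds (hidx y))
    refine h1.congr ?_
    filter_upwards [(hopen (idx y)).mem_nhds (hidx y)] with x hx
    exact (hglue (idx y) x hx).symm
  · intro y _
    rw [Complex.exp_sum]
    refine Finset.prod_congr rfl fun l _ => ?_
    rw [Complex.exp_int_mul, hhe (idx y) l y (hidx y)]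

end Pool.Agent.Y852.Gor
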